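import Mathlib

set_option autoImplicit false

/-!
# Union-closed sets: counting and lifting for lattices of subalgebras

`Good L`: the finite lattice `L` has a join-irreducible element below at most half of the elements.
-/

namespace Pool.Agent.Q132.RF

/-- some join-irreducible element lies below at most half of the elements -/
def Good (L : Type*) [SemilatticeSup L] : Prop :=
  ∃ J : L, SupIrred J ∧ 2 * Nat.card {H : L // J ≤ H} ≤ Nat.card L

theorem Good.of_orderIso {L L' : Type*} [SemilatticeSup L] [SemilatticeSup L'] (e : L ≃o L')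
    (h : Good L) : Good L' := by
  obtain ⟨J, ⟨h1, h2⟩, h3⟩ := h
  refine ⟨e J, ⟨?_, ?_⟩, ?_⟩
  · intro hm
    apply h1
    intro b hb
    have := hm (e.monotone hb)
    exact e.le_iff_le.1 this
  · intro b c hbc
    have h4 : e.symm b ⊔ e.symm c = J := by
      rw [← e.symm.map_sup, hbc, e.symm_apply_apply]
    rcases h2 h4 with h | h
    · left; rw [← h, e.apply_symm_apply]
    · right; rw [← h, e.apply_symm_apply]
  · have h5 : Nat.card {H : L' // e J ≤ H} = Nat.card {H : L // J ≤ H} := by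
      refine (Nat.card_congr ?_).symm
      exact e.toEquiv.subtypeEquiv fun H => by simp
    rw [h5, ← Nat.card_congr e.toEquiv]
    exact h3

/-- If the elements above both `J₁` and `J₂` inject into the elements above neither, then one of
them lies below at most half of the elements. -/
theorem count {L : Type*} [Finite L] [PartialOrder L] (J₁ J₂ : L) (φ : L → L)
    (hinj : ∀ H K : L, J₁ ≤ H → J₂ ≤ H → J₁ ≤ K → J₂ ≤ K → φ H = φ K → H = K)
    (hφ : ∀ H : L, J₁ ≤ H → J₂ ≤ H → ¬ J₁ ≤ φ H ∧ ¬ J₂ ≤ φ H) :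
    2 * Nat.card {H : L // J₁ ≤ H} ≤ Nat.card L ∨ 2 * Nat.card {H : L // J₂ ≤ H} ≤ Nat.card L := by
  classical
  have := Fintype.ofFinite L
  have e1 : ∀ J : L, Nat.card {H : L // J ≤ H} = (Finset.univ.filter fun H : L => J ≤ H).card := by
    intro J
    rw [Nat.card_eq_fintype_card, Fintype.card_subtype]
  rw [e1, e1, Nat.card_eq_fintype_card]
  set A := Finset.univ.filter fun H : L => J₁ ≤ H
  set B := Finset.univ.filter fun H : L => J₂ ≤ H
  have h1 : (A ∩ B).card ≤ ((A ∪ B)ᶜ).card := by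
    refine Finset.card_le_card_of_injOn φ ?_ ?_
    · intro H hH
      simp only [A, B, Finset.coe_inter, Set.mem_inter_iff, Finset.mem_coe, Finset.mem_filter,
        Finset.mem_univ, true_and] at hH
      have := hφ H hH.1 hH.2
      simp only [A, B, Finset.mem_coe, Finset.mem_compl, Finset.mem_union, Finset.mem_filter,
        Finset.mem_univ, true_and, not_or]
      exact this
    · intro H hH K hK h
      simp only [A, B, Finset.coe_inter, Set.mem_inter_iff, Finset.mem_coe, Finset.mem_filter,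
        Finset.mem_univ, true_and] at hH hK
      exact hinj H K hH.1 hH.2 hK.1 hK.2 h
  have h2 := Finset.card_union_add_card_inter A B
  have h3 := Finset.card_add_card_compl (A ∪ B)
  omega

section lift

variable {R A B : Type*} [CommRing R] [Ring A] [Ring B] [Algebra R A] [Algebra R B]

instance [Finite A] : Finite (Subalgebra R A) :=
  Finite.of_injective (fun S : Subalgebra R A => (S : Set A)) SetLike.coe_injective

theorem exists_lift [Finite A] (f : A →ₐ[R] B) (hf : Function.Surjective f) (C : Subalgebra R B)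
    (hC : SupIrred C) : ∃ J : Subalgebra R A, SupIrred J ∧ J.map f = C := by
  have hne : {H : Subalgebra R A | H.map f = C}.Nonempty := by
    refine ⟨C.comap f, ?_⟩
    show (C.comap f).map f = C
    ext b
    simp only [Subalgebra.mem_map, Subalgebra.mem_comap]
    constructor
    · rintro ⟨a, ha, rfl⟩; exact ha
    · intro hb
      obtain ⟨a, rfl⟩ := hf b
      exact ⟨a, hb, rfl⟩
  obtain ⟨J, hJ⟩ := (Set.toFinite {H : Subalgebra R A | H.map f = C}).exists_minimal hne
  have hJC : J.map f = C := hJ.1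
  refine ⟨J, ⟨?_, ?_⟩, hJC⟩
  · intro hm
    apply hC.1
    have h1 : J ≤ ⊥ := hm bot_le
    have h2 : C = ⊥ := by
      rw [← hJC, le_bot_iff.1 h1, Algebra.map_bot]
    rw [h2]; exact isMin_bot
  · intro b c hbc
    have h1 : b.map f ⊔ c.map f = C := by
      rw [← Algebra.map_sup, hbc, hJC]
    rcases hC.2 h1 with h | h
    · left
      exact le_antisymm (hbc ▸ le_sup_left) (hJ.2 h (hbc ▸ le_sup_left))
    · right
      exact le_antisymm (hbc ▸ le_sup_right) (hJ.2 h (hbc ▸ le_sup_right))

/-- two generators -/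
theorem good_of_two [Finite A] (f : A →ₐ[R] B) (hf : Function.Surjective f) (C₁ C₂ : Subalgebra R B)
    (h₁ : SupIrred C₁) (h₂ : SupIrred C₂) (hC : C₁ ⊔ C₂ = ⊤) : Good (Subalgebra R A) := by
  obtain ⟨J₁, hJ₁, e₁⟩ := exists_lift f hf C₁ h₁
  obtain ⟨J₂, hJ₂, e₂⟩ := exists_lift f hf C₂ h₂
  have key : ∀ H : Subalgebra R A, J₁ ≤ H → J₂ ≤ H →
      H = (J₁ ⊔ J₂) ⊔ (H ⊓ (⊥ : Subalgebra R B).comap f) := by
    intro H hH1 hH2
    apply le_antisymm
    · intro h hh
      have h3 : f h ∈ (J₁ ⊔ J₂).map f := by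
        rw [Algebra.map_sup, e₁, e₂, hC]; exact Algebra.mem_top
      obtain ⟨w, hw, hfw⟩ := h3
      have hw' : w ∈ H := (sup_le hH1 hH2 : J₁ ⊔ J₂ ≤ H) hw
      have h4 : h - w ∈ H ⊓ (⊥ : Subalgebra R B).comap f := by
        refine ⟨H.sub_mem hh hw', ?_⟩
        show f (h - w) ∈ (⊥ : Subalgebra R B)
        rw [map_sub]
        have : f w = f h := hfw
        rw [this, sub_self]
        exact Subalgebra.zero_mem _
      have h5 : h = w + (h - w) := by abel
      rw [h5]
      exact Subalgebra.add_mem _ ((le_sup_left : (J₁ ⊔ J₂) ≤ _) hw)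
        ((le_sup_right : (H ⊓ (⊥ : Subalgebra R B).comap f) ≤ _) h4)
    · exact sup_le (sup_le hH1 hH2) inf_le_left
  have hnot : ∀ (J : Subalgebra R A) (C : Subalgebra R B), SupIrred C → J.map f = C →
      ∀ H : Subalgebra R A, ¬ J ≤ H ⊓ (⊥ : Subalgebra R B).comap f := by
    intro J C hC e H hle
    apply hC.1
    have : C ≤ ⊥ := by
      rw [← e, Subalgebra.map_le]
      exact hle.trans inf_le_right
    rw [le_bot_iff.1 this]
    exact isMin_bot
  rcases count J₁ J₂ (fun H => H ⊓ (⊥ : Subalgebra R B).comap f)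
      (fun H K h1 h2 h3 h4 h => by
        have h : H ⊓ (⊥ : Subalgebra R B).comap f = K ⊓ (⊥ : Subalgebra R B).comap f := h
        rw [key H h1 h2, key K h3 h4, h])
      (fun H _ _ => ⟨hnot J₁ C₁ h₁ e₁ H, hnot J₂ C₂ h₂ e₂ H⟩) with h | h
  · exact ⟨J₁, hJ₁, h⟩
  · exact ⟨J₂, hJ₂, h⟩

/-- one generator and a modular subalgebra -/
theorem good_of_one [Finite A] (f : A →ₐ[R] B) (hf : Function.Surjective f) (C M : Subalgebra R B)
    (hC : SupIrred C) (hCM : ¬ C ≤ M) (hM : ∀ D : Subalgebra R B, C ≤ D → D ≤ C ⊔ (D ⊓ M)) :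
    Good (Subalgebra R A) := by
  obtain ⟨J, hJ, e⟩ := exists_lift f hf C hC
  have key : ∀ H : Subalgebra R A, J ≤ H → H = J ⊔ (H ⊓ M.comap f) := by
    intro H hH
    apply le_antisymm
    · intro h hh
      have h0 : C ≤ H.map f := by rw [← e]; exact Subalgebra.map_mono hH
      have h1 : (H ⊓ M.comap f).map f = H.map f ⊓ M := by
        ext b
        simp only [Subalgebra.mem_map, Algebra.mem_inf, Subalgebra.mem_comap]
        constructor
        · rintro ⟨a, ⟨ha, hb⟩, rfl⟩; exact ⟨⟨a, ha, rfl⟩, hb⟩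
        · rintro ⟨⟨a, ha, rfl⟩, hb⟩; exact ⟨a, ⟨ha, hb⟩, rfl⟩
      have h3 : f h ∈ (J ⊔ (H ⊓ M.comap f)).map f := by
        rw [Algebra.map_sup, e, h1]
        exact hM _ h0 ⟨h, hh, rfl⟩
      obtain ⟨w, hw, hfw⟩ := h3
      have hw' : w ∈ H := (sup_le hH inf_le_left : J ⊔ (H ⊓ M.comap f) ≤ H) hw
      have h4 : h - w ∈ H ⊓ M.comap f := by
        refine ⟨H.sub_mem hh hw', ?_⟩
        show f (h - w) ∈ M
        rw [map_sub]
        have : f w = f h := hfw
        rw [this, sub_self]
        exact Subalgebra.zero_mem _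
      have h5 : h = w + (h - w) := by abel
      rw [h5]
      exact Subalgebra.add_mem _ hw ((le_sup_right : (H ⊓ M.comap f) ≤ _) h4)
    · exact sup_le hH inf_le_left
  have hnot : ∀ H : Subalgebra R A, ¬ J ≤ H ⊓ M.comap f := by
    intro H hle
    apply hCM
    rw [← e, Subalgebra.map_le]
    exact hle.trans inf_le_right
  rcases count J J (fun H => H ⊓ M.comap f)
      (fun H K h1 _ h3 _ h => by
        have h : H ⊓ M.comap f = K ⊓ M.comap f := h
        rw [key H h1, key K h3, h])
      (fun H _ _ => ⟨hnot H, hnot H⟩) with h | h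
  · exact ⟨J, hJ, h⟩
  · exact ⟨J, hJ, h⟩

end lift

end Pool.Agent.Q132.RF
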