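import Pool.Agent.Q132.RF.Main

set_option autoImplicit false

/-!
# Non-unital algebras, and the version with elements
-/

namespace Pool.Agent.Q132.RF

section nonunital

variable {R A : Type*} [CommRing R] [NonUnitalRing A] [Module R A] [IsScalarTower R A A]
  [SMulCommClass R A A]

theorem inr_snd_eq (z : Unitization R A) :
    ((z.snd : A) : Unitization R A) = z - algebraMap R (Unitization R A) z.fst := by
  rw [eq_sub_iff_add_eq, Unitization.algebraMap_eq_inl, add_comm]
  exact Unitization.inl_fst_add_inr_snd_eq z

/-- the subalgebras of a non-unital algebra are the unital subalgebras of its unitization -/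
def unitizationIso : Subalgebra R (Unitization R A) ≃o NonUnitalSubalgebra R A where
  toFun D :=
    { carrier := {a | (a : Unitization R A) ∈ D}
      add_mem' := fun {a b} ha hb => by
        have := D.add_mem ha hb
        rwa [← Unitization.inr_add] at this
      zero_mem' := by
        show ((0 : A) : Unitization R A) ∈ D
        rw [Unitization.inr_zero]; exact D.zero_mem
      mul_mem' := fun {a b} ha hb => by
        have := D.mul_mem ha hb
        rwa [← Unitization.inr_mul] at this
      smul_mem' := fun c x hx => by
        have := D.smul_mem hx c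
        rwa [← Unitization.inr_smul] at this }
  invFun H :=
    { carrier := {z | z.snd ∈ H}
      mul_mem' := fun {a b} ha hb => by
        show (a * b).snd ∈ H
        rw [Unitization.snd_mul]
        exact H.add_mem (H.add_mem (H.smul_mem _ hb) (H.smul_mem _ ha)) (H.mul_mem ha hb)
      add_mem' := fun {a b} ha hb => by
        show (a + b).snd ∈ H
        rw [Unitization.snd_add]
        exact H.add_mem ha hb
      algebraMap_mem' := fun r => by
        show (algebraMap R (Unitization R A) r).snd ∈ H
        rw [Unitization.algebraMap_eq_inl, Unitization.snd_inl]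
        exact H.zero_mem }
  left_inv D := by
    ext z
    show ((z.snd : A) : Unitization R A) ∈ D ↔ z ∈ D
    have h1 := inr_snd_eq z
    rw [h1]
    constructor
    · intro h
      have := D.add_mem h (D.algebraMap_mem z.fst)
      rwa [sub_add_cancel] at this
    · intro h
      exact D.sub_mem h (D.algebraMap_mem z.fst)
  right_inv H := by
    ext a
    show ((a : Unitization R A)).snd ∈ H ↔ a ∈ H
    rw [Unitization.snd_inr]
  map_rel_iff' := by
    intro D D'
    constructor
    · intro h z hz
      have h1 := inr_snd_eq z
      have h2 : (z.snd : Unitization R A) ∈ D := by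
        rw [h1]; exact D.sub_mem hz (D.algebraMap_mem z.fst)
      have h3 : (z.snd : Unitization R A) ∈ D' := h h2
      rw [h1] at h3
      have := D'.add_mem h3 (D'.algebraMap_mem z.fst)
      rwa [sub_add_cancel] at this
    · intro h a ha
      exact h ha

theorem good_nonUnital_of_finite [Finite R] [Finite A] [Nontrivial A] :
    Good (NonUnitalSubalgebra R A) := by
  have : Finite (Unitization R A) := by
    refine Finite.of_injective (fun z : Unitization R A => (z.fst, z.snd)) ?_
    intro z w h
    exact Unitization.ext (congrArg Prod.fst h) (congrArg Prod.snd h)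
  refine Good.of_orderIso unitizationIso (good_subalgebra R (Unitization R A) ?_)
  intro h
  obtain ⟨a, ha⟩ := exists_ne (0 : A)
  have h1 : (a : Unitization R A) ∈ (⊥ : Subalgebra R (Unitization R A)) := by
    rw [h]; exact Algebra.mem_top
  obtain ⟨r, hr⟩ := Algebra.mem_bot.1 h1
  have h2 : (algebraMap R (Unitization R A) r).snd = (a : Unitization R A).snd := by rw [hr]
  rw [Unitization.algebraMap_eq_inl, Unitization.snd_inl, Unitization.snd_inr] at h2
  exact ha h2.symm

variable (R A) in
/-- the main theorem for algebras without an identity -/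
theorem good_nonUnital [Finite A] [Nontrivial A] : Good (NonUnitalSubalgebra R A) := by
  let _ : Module (R ⧸ Module.annihilator R A) A := Module.quotientAnnihilator
  have hfin : Finite (R ⧸ Module.annihilator R A) := by
    refine Finite.of_injective (fun q : (R ⧸ Module.annihilator R A) => fun a : A => q • a) ?_
    intro q q' h
    obtain ⟨r, rfl⟩ := Ideal.Quotient.mk_surjective q
    obtain ⟨r', rfl⟩ := Ideal.Quotient.mk_surjective q'
    rw [Ideal.Quotient.eq, Module.mem_annihilator]
    intro a
    have h1 : (Ideal.Quotient.mk (Module.annihilator R A) r) • a =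
      (Ideal.Quotient.mk (Module.annihilator R A) r') • a := congrFun h a
    rw [sub_smul, sub_eq_zero]
    exact h1
  have i1 : IsScalarTower (R ⧸ Module.annihilator R A) A A := by
    refine ⟨fun q a b => ?_⟩
    obtain ⟨r, rfl⟩ := Ideal.Quotient.mk_surjective q
    exact smul_mul_assoc r a b
  have i2 : SMulCommClass (R ⧸ Module.annihilator R A) A A := by
    refine ⟨fun q a b => ?_⟩
    obtain ⟨r, rfl⟩ := Ideal.Quotient.mk_surjective q
    exact (mul_smul_comm r a b).symm
  let e : NonUnitalSubalgebra (R ⧸ Module.annihilator R A) A ≃o NonUnitalSubalgebra R A :=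
    { toFun := fun H =>
        { H.toNonUnitalSubsemiring with
          smul_mem' := fun c x hx => H.smul_mem' (Ideal.Quotient.mk _ c) hx }
      invFun := fun H =>
        { H.toNonUnitalSubsemiring with
          smul_mem' := fun c x hx => by
            obtain ⟨r, rfl⟩ := Ideal.Quotient.mk_surjective c
            exact H.smul_mem' r hx }
      left_inv := fun H => rfl
      right_inv := fun H => rfl
      map_rel_iff' := Iff.rfl }
  exact Good.of_orderIso e good_nonUnital_of_finite

end nonunital

/-- the subrings of a ring without identity are its non-unital subalgebras over the integers -/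
def intIso (A : Type*) [NonUnitalRing A] : NonUnitalSubalgebra ℤ A ≃o NonUnitalSubring A where
  toFun H := { H.toNonUnitalSubsemiring with
    neg_mem' := fun {x} hx => by
      have := H.smul_mem' (-1 : ℤ) hx
      rwa [neg_one_smul] at this }
  invFun H := { H.toNonUnitalSubsemiring with
    smul_mem' := fun c x hx => H.toAddSubgroup.zsmul_mem hx c }
  left_inv _ := rfl
  right_inv _ := rfl
  map_rel_iff' := Iff.rfl

theorem good_nonUnitalSubring (A : Type*) [NonUnitalRing A] [Finite A] [Nontrivial A] :
    Good (NonUnitalSubring A) :=
  Good.of_orderIso (intIso A) (good_nonUnital ℤ A)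

/-- the subrings of a ring with identity are its subalgebras over the integers -/
def intIso' (A : Type*) [Ring A] : Subalgebra ℤ A ≃o Subring A where
  toFun H := H.toSubring
  invFun H := { H with
    algebraMap_mem' := fun c => by
      show (algebraMap ℤ A c) ∈ H
      simp }
  left_inv _ := rfl
  right_inv _ := rfl
  map_rel_iff' := Iff.rfl

theorem good_subring (A : Type*) [Ring A] [Finite A] (h : (⊥ : Subring A) ≠ ⊤) :
    Good (Subring A) := by
  refine Good.of_orderIso (intIso' A) (good_subalgebra ℤ A ?_)
  intro h'
  apply h
  rw [← (intIso' A).map_bot, ← (intIso' A).map_top, h']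

/-- from join-irreducible elements to elements of the underlying set -/
theorem exists_element {A L : Type*} [Finite A] [Lattice L] [OrderBot L] [SetLike L A]
    (hle : ∀ H K : L, H ≤ K ↔ ∀ x, x ∈ H → x ∈ K) (hinf : ∀ (H K : L) (x : A), x ∈ H → x ∈ K → x ∈ H ⊓ K)
    (J : L) (hJ : SupIrred J) : ∃ x ∈ J, ∀ H : L, x ∈ H ↔ J ≤ H := by
  classical
  by_contra hcon
  push Not at hcon
  have h1 : ∀ x : J, ∃ H : L, (x : A) ∈ H ∧ ¬ J ≤ H := by
    intro x
    obtain ⟨H, hH⟩ := hcon x x.2
    rcases hH with ⟨h2, h3⟩ | ⟨h2, h3⟩
    · exact ⟨H, h2, h3⟩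
    · exact absurd ((hle J H).1 h3 x x.2) h2
  choose F hF hF' using h1
  have := Fintype.ofFinite J
  have h2 : (Finset.univ : Finset J).sup (fun x => F x ⊓ J) = J := by
    apply le_antisymm
    · exact Finset.sup_le fun x _ => inf_le_right
    · rw [hle]
      intro x hx
      have h3 : x ∈ F ⟨x, hx⟩ ⊓ J := hinf _ _ _ (hF ⟨x, hx⟩) hx
      exact (hle _ _).1 (Finset.le_sup (f := fun x => F x ⊓ J) (Finset.mem_univ (⟨x, hx⟩ : J))) x h3
  obtain ⟨x, _, hx⟩ := hJ.finset_sup_eq h2
  exact hF' x (inf_eq_right.1 hx)

end Pool.Agent.Q132.RF
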