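import Mathlib

set_option autoImplicit false

/-!
# Two nilpotent matrices that generate a full matrix ring over a finite field
-/

namespace Pool.Agent.Q132.RF

variable {D : Type*} [Field D] {n : ℕ}

/-- the nilpotent shift -/
def shiftM (D : Type*) [Field D] (n : ℕ) : Matrix (Fin n) (Fin n) D :=
  Matrix.of fun i j => if (j : ℕ) = i + 1 then 1 else 0

theorem shiftM_apply (i j : Fin n) : shiftM D n i j = if (j : ℕ) = i + 1 then 1 else 0 := rfl

theorem shiftM_pow (k : ℕ) (i j : Fin n) :
    (shiftM D n ^ k) i j = if (j : ℕ) = i + k then 1 else 0 := by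
  induction k generalizing i with
  | zero =>
    simp only [pow_zero, Matrix.one_apply, add_zero]
    by_cases h : i = j
    · subst h; simp
    · rw [if_neg h, if_neg]
      intro h'; exact h (Fin.ext h'.symm)
  | succ k ih =>
    rw [pow_succ', Matrix.mul_apply]
    simp only [ih, shiftM_apply, ite_mul, one_mul, zero_mul]
    by_cases hi : (i : ℕ) + 1 < n
    · rw [Finset.sum_eq_single (⟨i + 1, hi⟩ : Fin n)]
      · simp only [if_true]
        congr 1
        apply propext
        constructor <;> intro h <;> omega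
      · intro b _ hb
        rw [if_neg]
        intro h
        exact hb (Fin.ext h)
      · intro h; exact absurd (Finset.mem_univ _) h
    · rw [if_neg (by have := j.isLt; omega)]
      refine Finset.sum_eq_zero fun b _ => ?_
      rw [if_neg]
      have := b.isLt; omega

theorem shiftM_nilpotent : IsNilpotent (shiftM D n) := by
  refine ⟨n, ?_⟩
  ext i j
  rw [shiftM_pow, if_neg (by have := j.isLt; omega)]
  rfl

theorem single_mul_shift (i j : Fin n) (k : ℕ) (hj : (i : ℕ) + k = j) (a : Fin n) (d : D) :
    Matrix.single a i d * shiftM D n ^ k = Matrix.single a j d := by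
  ext p q
  rw [Matrix.mul_apply]
  simp only [shiftM_pow, Matrix.single_apply]
  rw [Finset.sum_eq_single i]
  · by_cases h1 : a = p
    · by_cases h2 : j = q
      · subst h1 h2; simp [hj]
      · have h3 : ¬ (q : ℕ) = i + k := fun h => h2 (Fin.ext (by omega))
        simp [h1, h2, h3]
    · simp [h1]
  · intro b _ hb
    rw [if_neg (by rintro ⟨_, h⟩; exact hb h.symm), zero_mul]
  · intro h; exact absurd (Finset.mem_univ _) h

theorem shift_mul_single (i j : Fin n) (k : ℕ) (hj : (i : ℕ) + k = j) (a : Fin n) (d : D) :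
    shiftM D n ^ k * Matrix.single j a d = Matrix.single i a d := by
  ext p q
  rw [Matrix.mul_apply]
  simp only [shiftM_pow, Matrix.single_apply]
  rw [Finset.sum_eq_single j]
  · by_cases h1 : i = p
    · subst h1
      simp [hj]
    · have h3 : ¬ (j : ℕ) = p + k := fun h => h1 (Fin.ext (by omega))
      simp [h1, h3]
  · intro b _ hb
    rw [if_neg (c := j = b ∧ a = q) (by rintro ⟨h, _⟩; exact hb h.symm), mul_zero]
  · intro h; exact absurd (Finset.mem_univ _) h

/-- the shift and `ζ E_{n-1,0}` generate the full matrix ring -/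
theorem generate [Finite D] (m : ℕ) (ζ : Dˣ) (hζ : ∀ u : Dˣ, u ∈ Subgroup.zpowers ζ)
    (T : Subring (Matrix (Fin (m + 2)) (Fin (m + 2)) D)) (h1 : shiftM D (m + 2) ∈ T)
    (h2 : Matrix.single (Fin.last (m + 1)) 0 (ζ : D) ∈ T) : T = ⊤ := by
  have hpow : ∀ k : ℕ, shiftM D (m + 2) ^ k ∈ T := fun k => T.pow_mem h1 k
  -- `ζ E_{00}`
  have a1 : Matrix.single (0 : Fin (m + 2)) 0 (ζ : D) ∈ T := by
    have := T.mul_mem (hpow (m + 1)) h2
    rwa [shift_mul_single (0 : Fin (m + 2)) (Fin.last (m + 1)) (m + 1) (by simp)] at this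
  have a2 : ∀ k : ℕ, Matrix.single (0 : Fin (m + 2)) 0 ((ζ : D) ^ (k + 1)) ∈ T := by
    intro k
    induction k with
    | zero => simpa using a1
    | succ k ih =>
      have := T.mul_mem ih a1
      rwa [Matrix.single_mul_single_same, ← pow_succ] at this
  have a3 : ∀ d : D, Matrix.single (0 : Fin (m + 2)) 0 d ∈ T := by
    intro d
    by_cases hd : d = 0
    · rw [hd, Matrix.single_zero]; exact T.zero_mem
    · obtain ⟨k, hk⟩ := (mem_powers_iff_mem_zpowers (x := ζ)).2 (hζ (Units.mk0 d hd))
      have hk' : (ζ : D) ^ k = d := by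
        have := congrArg Units.val hk
        simpa using this
      have hpos := orderOf_pos ζ
      have h3 : (ζ : D) ^ (k + orderOf ζ) = d := by
        rw [pow_add, hk']
        have : (ζ : D) ^ orderOf ζ = 1 := by
          rw [← Units.val_pow_eq_pow_val, pow_orderOf_eq_one]; rfl
        rw [this, mul_one]
      have h4 := a2 (k + orderOf ζ - 1)
      rwa [show k + orderOf ζ - 1 + 1 = k + orderOf ζ by omega, h3] at h4
  have a4 : ∀ (j : Fin (m + 2)) (d : D), Matrix.single (0 : Fin (m + 2)) j d ∈ T := by
    intro j d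
    have := T.mul_mem (a3 d) (hpow j)
    rwa [single_mul_shift (0 : Fin (m + 2)) j j (by simp)] at this
  have a5 : ∀ d : D, Matrix.single (Fin.last (m + 1)) (0 : Fin (m + 2)) d ∈ T := by
    intro d
    have := T.mul_mem h2 (a3 ((ζ : D)⁻¹ * d))
    rwa [Matrix.single_mul_single_same, mul_inv_cancel_left₀ ζ.ne_zero] at this
  have a6 : ∀ (i : Fin (m + 2)) (d : D), Matrix.single i (0 : Fin (m + 2)) d ∈ T := by
    intro i d
    have := T.mul_mem (hpow (m + 1 - i)) (a5 d)
    rwa [shift_mul_single i (Fin.last (m + 1)) (m + 1 - i)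
      (by have := i.isLt; simp only [Fin.val_last]; omega)] at this
  have a7 : ∀ (i j : Fin (m + 2)) (d : D), Matrix.single i j d ∈ T := by
    intro i j d
    have := T.mul_mem (a6 i d) (a4 j 1)
    rwa [Matrix.single_mul_single_same, mul_one] at this
  rw [eq_top_iff]
  intro M _
  rw [Matrix.matrix_eq_sum_single M]
  exact T.sum_mem fun i _ => T.sum_mem fun j _ => a7 i j _

end Pool.Agent.Q132.RF
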