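import Mathlib

set_option autoImplicit false

/-!
# The subalgebra generated by a nilpotent element is join-irreducible
-/

namespace Pool.Agent.Q132.RF

open Polynomial

variable {R B : Type*} [CommRing R] [Ring B] [Algebra R B]

/-- the elements `p(x)` with vanishing linear coefficient -/
def noLinear (x : B) : Subalgebra R B where
  carrier := {z | ∃ p : R[X], aeval x p = z ∧ algebraMap R B (p.coeff 1) = 0}
  mul_mem' := by
    rintro a b ⟨p, rfl, hp⟩ ⟨q, rfl, hq⟩
    refine ⟨p * q, by simp, ?_⟩
    rw [Polynomial.mul_coeff_one, map_add, map_mul, map_mul, hp, hq]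
    simp
  add_mem' := by
    rintro a b ⟨p, rfl, hp⟩ ⟨q, rfl, hq⟩
    refine ⟨p + q, by simp, ?_⟩
    rw [Polynomial.coeff_add, map_add, hp, hq, add_zero]
  algebraMap_mem' := by
    intro r
    exact ⟨C r, by simp, by simp⟩

theorem aeval_split (x : B) (p : R[X]) :
    aeval x p = aeval x p.divX.divX * x * x + algebraMap R B (p.coeff 1) * x +
      algebraMap R B (p.coeff 0) := by
  conv_lhs => rw [← Polynomial.divX_mul_X_add p, ← Polynomial.divX_mul_X_add p.divX]
  simp only [map_add, map_mul, aeval_X, aeval_C, Polynomial.coeff_divX, add_mul]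

theorem commute_aeval (x : B) (p : R[X]) : Commute (aeval x p) x := by
  show aeval x p * x = x * aeval x p
  have h1 : aeval x (p * X) = aeval x (X * p) := by rw [mul_comm]
  simpa using h1

theorem supIrred_adjoin [Nontrivial B]
    (hR : ∀ r : R, algebraMap R B r ≠ 0 → ∃ s : R, algebraMap R B (s * r) = 1)
    (x : B) (hx : IsNilpotent x) (hx0 : x ≠ 0) : SupIrred (Algebra.adjoin R {x}) := by
  have hnil : ∀ r : R, IsNilpotent (algebraMap R B r) → algebraMap R B r = 0 := by
    intro r hr
    by_contra h0
    obtain ⟨s, hs⟩ := hR r h0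
    obtain ⟨n, hn⟩ := hr
    have h1 : (algebraMap R B (s * r)) ^ n = 0 := by
      rw [map_mul, (Algebra.commute_algebraMap_left s (algebraMap R B r)).mul_pow, hn, mul_zero]
    rw [hs, one_pow] at h1
    exact one_ne_zero h1
  have hxbot : x ∉ (⊥ : Subalgebra R B) := by
    intro h
    obtain ⟨r, hr⟩ := Algebra.mem_bot.1 h
    apply hx0
    rw [← hr]
    exact hnil r (hr ▸ hx)
  have hxS : x ∉ noLinear (R := R) x := by
    rintro ⟨p, hp, hp1⟩
    rw [aeval_split, hp1, zero_mul, add_zero] at hp
    set w := aeval x p.divX.divX with hw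
    have hc : Commute w x := commute_aeval x _
    have h1 : algebraMap R B (p.coeff 0) = (1 - w * x) * x := by
      rw [sub_mul, one_mul, eq_sub_iff_add_eq, add_comm]
      exact hp
    have hwx : IsNilpotent (w * x) := hc.isNilpotent_mul_left hx
    have h2 : IsNilpotent (algebraMap R B (p.coeff 0)) := by
      rw [h1]
      refine Commute.isNilpotent_mul_left ?_ hx
      exact (Commute.one_left x).sub_left (hc.mul_left (Commute.refl x))
    have h3 := hnil _ h2
    rw [h3] at h1
    have h4 : IsUnit (1 - w * x) := hwx.isUnit_one_sub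
    exact hx0 ((h4.mul_right_eq_zero).1 h1.symm)
  have hmem : ∀ z : B, z ∈ Algebra.adjoin R {x} ↔ ∃ p : R[X], aeval x p = z := by
    intro z
    rw [Algebra.adjoin_singleton_eq_range_aeval]
    rfl
  have hxC : x ∈ Algebra.adjoin R {x} := Algebra.subset_adjoin rfl
  have key : ∀ b : Subalgebra R B, b ≤ Algebra.adjoin R {x} → b ≠ Algebra.adjoin R {x} →
      b ≤ noLinear x := by
    intro b hb hbne z hz
    by_contra hzS
    apply hbne
    refine le_antisymm hb (Algebra.adjoin_le ?_)
    rw [Set.singleton_subset_iff]
    obtain ⟨p, rfl⟩ := (hmem z).1 (hb hz)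
    have hp1 : algebraMap R B (p.coeff 1) ≠ 0 := fun h => hzS ⟨p, rfl, h⟩
    obtain ⟨s, hs⟩ := hR _ hp1
    -- the element `x + u x^2` of `b`
    set u : R[X] := Polynomial.C s * p.divX.divX with hu
    have hz' : aeval x ((1 + u * X) * X) ∈ b := by
      have e : aeval x ((1 + u * X) * X) = s • (aeval x p - algebraMap R B (p.coeff 0)) := by
        rw [aeval_split x p, add_sub_cancel_right, smul_add, Algebra.smul_def, Algebra.smul_def,
          ← mul_assoc (algebraMap R B s) (algebraMap R B (p.coeff 1)) x, ← map_mul, hs, one_mul]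
        simp only [hu, map_mul, map_add, map_one, aeval_X, aeval_C]
        noncomm_ring
      rw [e]
      exact b.smul_mem (b.sub_mem hz (b.algebraMap_mem _)) s
    obtain ⟨N, hN⟩ := hx
    have hind : ∀ k j : ℕ, N ≤ j + k → x ^ (j + 1) ∈ b := by
      intro k
      induction k with
      | zero =>
        intro j hj
        have : x ^ (j + 1) = 0 := by
          rw [show j + 1 = N + (j + 1 - N) by omega, pow_add, hN, zero_mul]
        rw [this]; exact b.zero_mem
      | succ k ih =>
        intro j hj
        have hdvd : (X : R[X]) ∣ (1 + u * X) ^ (j + 1) - 1 := by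
          have h1 : (1 + u * X) - 1 ∣ (1 + u * X) ^ (j + 1) - 1 ^ (j + 1) :=
            sub_dvd_pow_sub_pow _ _ _
          rw [one_pow] at h1
          refine dvd_trans ?_ h1
          rw [add_sub_cancel_left]
          exact Dvd.intro_left u rfl
        obtain ⟨t, ht⟩ := hdvd
        have ht' : (1 + u * X) ^ (j + 1) = 1 + X * t := by rw [← ht]; ring
        have h1 : (aeval x ((1 + u * X) * X)) ^ (j + 1) = x ^ (j + 1) +
            aeval x t * x ^ (j + 2) := by
          rw [← map_pow, mul_pow, ht']
          have : (1 + X * t) * X ^ (j + 1) = X ^ (j + 1) + t * X ^ (j + 2) := by ring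
          rw [this]
          simp
        have h2 : aeval x t * x ^ (j + 2) ∈ b := by
          rw [Polynomial.aeval_eq_sum_range, Finset.sum_mul]
          refine b.sum_mem fun i _ => ?_
          rw [smul_mul_assoc, ← pow_add]
          refine b.smul_mem ?_ _
          have := ih (i + j + 1) (by omega)
          rw [show i + (j + 2) = (i + j + 1) + 1 by ring]
          exact this
        have h3 := b.sub_mem (b.pow_mem hz' (j + 1)) h2
        rw [h1, add_sub_cancel_right] at h3
        exact h3
    have := hind N 0 (by omega)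
    simpa using this
  refine ⟨?_, ?_⟩
  · intro hm
    exact hxbot (hm bot_le hxC)
  · intro b c hbc
    by_contra hcon
    rw [not_or] at hcon
    have h1 := key b (hbc ▸ le_sup_left) hcon.1
    have h2 := key c (hbc ▸ le_sup_right) hcon.2
    have h3 : Algebra.adjoin R {x} ≤ noLinear x := by
      rw [← hbc]; exact sup_le h1 h2
    exact hxS (h3 hxC)

end Pool.Agent.Q132.RF
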