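import Pool.Agent.Q132.RF.Basic

set_option autoImplicit false

/-!
# Quotients of a finite algebra that are critical for not being generated by the scalars
-/

namespace Pool.Agent.Q132.RF

variable (R : Type*) [CommRing R]

/-- `B` is not equal to the image of `R`, but all its proper quotients are -/
structure Crit (B : Type*) [Ring B] [Algebra R B] : Prop where
  ne : (⊥ : Subalgebra R B) ≠ ⊤
  quot : ∀ K : Ideal B, K.IsTwoSided → K ≠ ⊥ → ∀ b : B, ∃ r : R, ∃ k ∈ K, b = algebraMap R B r + k

theorem exists_crit (A : Type*) [Ring A] [Algebra R A] [Finite A]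
    (h : (⊥ : Subalgebra R A) ≠ ⊤) : ∃ (I : Ideal A) (_ : I.IsTwoSided), Crit R (A ⧸ I) := by
  have : Finite (Ideal A) := Finite.of_injective (fun S : Ideal A => (S : Set A)) SetLike.coe_injective
  set P : Set (Ideal A) :=
    {I | I.IsTwoSided ∧ ∃ a : A, ∀ r : R, ∀ i ∈ I, a ≠ algebraMap R A r + i} with hP
  have hne : P.Nonempty := by
    refine ⟨⊥, inferInstance, ?_⟩
    by_contra hcon
    push Not at hcon
    apply h
    rw [eq_top_iff]
    intro a _
    obtain ⟨r, i, hi, ha⟩ := hcon a
    rw [Ideal.mem_bot.1 hi, add_zero] at ha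
    rw [ha]
    exact Subalgebra.algebraMap_mem _ r
  obtain ⟨I, hI⟩ := (Set.toFinite P).exists_maximal hne
  obtain ⟨⟨hI1, a, ha⟩, hmax⟩ := hI
  refine ⟨I, hI1, ?_, ?_⟩
  · intro hbt
    have h1 : (Ideal.Quotient.mk I a : A ⧸ I) ∈ (⊥ : Subalgebra R (A ⧸ I)) := by
      rw [hbt]; exact Algebra.mem_top
    obtain ⟨r, hr⟩ := Algebra.mem_bot.1 h1
    rw [← Ideal.Quotient.mk_algebraMap] at hr
    have h2 := Ideal.Quotient.eq.1 hr.symm
    exact ha r _ h2 (by abel)
  · intro K hK hK0 b
    have hle : I ≤ K.comap (Ideal.Quotient.mk I) := by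
      intro x hx
      rw [Ideal.mem_comap, Ideal.Quotient.eq_zero_iff_mem.2 hx]
      exact K.zero_mem
    have hnot : ¬ (K.comap (Ideal.Quotient.mk I) ∈ P) := by
      intro hmem
      have h1 := hmax hmem hle
      apply hK0
      rw [eq_bot_iff]
      intro x hx
      obtain ⟨y, rfl⟩ := Ideal.Quotient.mk_surjective x
      have h2 : y ∈ I := h1 hx
      rw [Ideal.mem_bot]
      exact Ideal.Quotient.eq_zero_iff_mem.2 h2
    obtain ⟨y, rfl⟩ := Ideal.Quotient.mk_surjective b
    have h3 : ∃ r : R, ∃ i ∈ K.comap (Ideal.Quotient.mk I), y = algebraMap R A r + i := by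
      by_contra hcon
      push Not at hcon
      exact hnot ⟨inferInstance, y, fun r i hi => hcon r i hi⟩
    obtain ⟨r, i, hi, hy⟩ := h3
    refine ⟨r, Ideal.Quotient.mk I i, hi, ?_⟩
    rw [hy, map_add, Ideal.Quotient.mk_algebraMap]

variable {R}

theorem crit_cases {B : Type*} [Ring B] [Algebra R B] [Finite B] (hB : Crit R B) :
    (∀ D : Subalgebra R B, D ≠ ⊥ → D = ⊤) ∨ IsSimpleRing B := by
  have : Finite (Ideal B) := Finite.of_injective (fun S : Ideal B => (S : Set B)) SetLike.coe_injective
  have hnt : Nontrivial B := by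
    by_contra hcon
    rw [not_nontrivial_iff_subsingleton] at hcon
    apply hB.ne
    ext b
    have : b = algebraMap R B 0 := Subsingleton.elim _ _
    constructor
    · intro _; exact Algebra.mem_top
    · intro _; rw [this]; exact Subalgebra.algebraMap_mem _ _
  have hne : {K : Ideal B | K.IsTwoSided ∧ K ≠ ⊥}.Nonempty := ⟨⊤, inferInstance, top_ne_bot⟩
  obtain ⟨K, ⟨hK1, hK0⟩, hmin⟩ := (Set.toFinite {K : Ideal B | K.IsTwoSided ∧ K ≠ ⊥}).exists_minimal hne
  have hsmall : ∀ T : Ideal B, T.IsTwoSided → T ≤ K → T = ⊥ ∨ T = K := by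
    intro T hT hTK
    by_cases h0 : T = ⊥
    · exact Or.inl h0
    · exact Or.inr (le_antisymm hTK (hmin ⟨hT, h0⟩ hTK))
  -- the annihilators
  let L : Ideal B :=
    { carrier := {b | ∀ k ∈ K, b * k = 0}
      add_mem' := fun {a b} ha hb k hk => by rw [add_mul, ha k hk, hb k hk, add_zero]
      zero_mem' := fun k _ => zero_mul k
      smul_mem' := fun c x hx k hk => by rw [smul_eq_mul, mul_assoc, hx k hk, mul_zero] }
  have hL : L.IsTwoSided := ⟨fun {a} b ha k hk => by
    rw [mul_assoc]; exact ha _ (K.mul_mem_left b hk)⟩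
  let Ra : Ideal B :=
    { carrier := {b | ∀ k ∈ K, k * b = 0}
      add_mem' := fun {a b} ha hb k hk => by rw [mul_add, ha k hk, hb k hk, add_zero]
      zero_mem' := fun k _ => mul_zero k
      smul_mem' := fun c x hx k hk => by
        rw [smul_eq_mul, ← mul_assoc]; exact hx _ (K.mul_mem_right c hk) }
  have hRa : Ra.IsTwoSided := ⟨fun {a} b ha k hk => by
    rw [← mul_assoc, ha k hk, zero_mul]⟩
  by_cases hAnn : L ⊓ Ra = ⊥
  · right
    have hKK : ¬ ∀ k ∈ K, ∀ k' ∈ K, k * k' = 0 := by
      intro hcon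
      apply hK0
      rw [eq_bot_iff, ← hAnn]
      intro x hx
      exact ⟨fun k hk => hcon x hx k hk, fun k hk => hcon k hk x hx⟩
    have hLK : L ⊓ K = ⊥ := by
      have : (L ⊓ K).IsTwoSided := ⟨fun {a} b ha => ⟨L.mul_mem_right b ha.1, K.mul_mem_right b ha.2⟩⟩
      rcases hsmall (L ⊓ K) this inf_le_right with h | h
      · exact h
      · exfalso
        apply hKK
        intro k hk k' hk'
        have : k ∈ L ⊓ K := by rw [h]; exact hk
        exact this.1 k' hk'
    have hRK : Ra ⊓ K = ⊥ := by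
      have : (Ra ⊓ K).IsTwoSided := ⟨fun {a} b ha => ⟨Ra.mul_mem_right b ha.1, K.mul_mem_right b ha.2⟩⟩
      rcases hsmall (Ra ⊓ K) this inf_le_right with h | h
      · exact h
      · exfalso
        apply hKK
        intro k hk k' hk'
        have : k' ∈ Ra ⊓ K := by rw [h]; exact hk'
        exact this.1 k hk
    have hL0 : L = ⊥ := by
      rw [eq_bot_iff, ← hAnn]
      intro b hb
      refine ⟨hb, fun k hk => ?_⟩
      have h1 : k * b ∈ L ⊓ K := ⟨L.mul_mem_left k hb, K.mul_mem_right b hk⟩
      rw [hLK] at h1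
      exact h1
    have hR0 : Ra = ⊥ := by
      rw [eq_bot_iff, ← hAnn]
      intro b hb
      refine ⟨fun k hk => ?_, hb⟩
      have h1 : b * k ∈ Ra ⊓ K := ⟨Ra.mul_mem_right k hb, K.mul_mem_left b hk⟩
      rw [hRK] at h1
      exact h1
    have hJ : Ring.jacobson B = ⊥ := by
      set J := Ring.jacobson B with hJdef
      have hJK : J * K = ⊥ := by
        rcases hsmall (J * K) inferInstance Ideal.mul_le_right with h | h
        · exact h
        · exfalso
          have h1 : ∀ n : ℕ, J ^ n * K = K := fun n => n.rec (by rw [J.pow_zero, K.one_mul])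
            fun n hn => by rwa [J.pow_succ, mul_assoc, h]
          obtain ⟨n, hn⟩ := IsSemiprimaryRing.isNilpotent (R := B)
          have h2 := h1 n
          rw [hJdef, hn] at h2
          apply hK0
          rw [← h2]
          simp
      rw [eq_bot_iff, ← hL0]
      intro j hj k hk
      have : j * k ∈ J * K := Ideal.mul_mem_mul hj hk
      rw [hJK] at this
      exact this
    have hss : IsSemisimpleRing B := IsArtinianRing.isSemisimpleRing_iff_jacobson.2 hJ
    have hKtop : K = ⊤ := by
      obtain ⟨M, hM⟩ := exists_isCompl (K : Submodule B B)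
      have h1 : (1 : B) ∈ K ⊔ M := by rw [hM.sup_eq_top]; exact Submodule.mem_top
      obtain ⟨e, he, f, hf, hef⟩ := Submodule.mem_sup.1 h1
      have hf0 : f = 0 := by
        have : f ∈ Ra := by
          intro k hk
          have h2 : k * f = k - k * e := by
            have : k * (e + f) = k := by rw [hef, mul_one]
            rw [mul_add] at this
            rw [eq_sub_iff_add_eq, add_comm]; exact this
          have h3 : k * f ∈ K ⊓ M := by
            refine ⟨?_, M.smul_mem k hf⟩
            rw [h2]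
            exact K.sub_mem hk (K.mul_mem_left k he)
          rw [hM.inf_eq_bot] at h3
          exact h3
        rw [hR0] at this
        exact this
      rw [hf0, add_zero] at hef
      rw [Ideal.eq_top_iff_one, ← hef]
      exact he
    rw [isSimpleRing_iff_isTwoSided_imp]
    refine ⟨hnt, fun I hI => ?_⟩
    have := hsmall I hI (hKtop ▸ le_top)
    rwa [hKtop] at this
  · left
    have hq : ∀ b : B, ∃ r : R, ∃ k ∈ L ⊓ Ra, b = algebraMap R B r + k := by
      have : (L ⊓ Ra).IsTwoSided :=
        ⟨fun {a} b ha => ⟨L.mul_mem_right b ha.1, Ra.mul_mem_right b ha.2⟩⟩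
      exact hB.quot _ this hAnn
    intro D hD
    have hTmul : ∀ a : B, ∀ t ∈ K, t ∈ D → a * t ∈ D ∧ t * a ∈ D := by
      intro a t htK htD
      obtain ⟨r, k, hk, rfl⟩ := hq a
      rw [add_mul, hk.1 t htK, mul_add, hk.2 t htK, add_zero, add_zero]
      exact ⟨D.mul_mem (D.algebraMap_mem r) htD, D.mul_mem htD (D.algebraMap_mem r)⟩
    let T : Ideal B :=
      { carrier := {t | t ∈ K ∧ t ∈ D}
        add_mem' := fun {a b} ha hb => ⟨K.add_mem ha.1 hb.1, D.add_mem ha.2 hb.2⟩
        zero_mem' := ⟨K.zero_mem, D.zero_mem⟩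
        smul_mem' := fun c x hx => ⟨K.mul_mem_left c hx.1, (hTmul c x hx.1 hx.2).1⟩ }
    have hT : T.IsTwoSided := ⟨fun {a} b ha => ⟨K.mul_mem_right b ha.1, (hTmul b a ha.1 ha.2).2⟩⟩
    have hTK : T = K := by
      rcases hsmall T hT (fun x hx => hx.1) with h | h
      · exfalso
        apply hD
        rw [eq_bot_iff]
        intro z hz
        obtain ⟨r, k, hk, rfl⟩ := hB.quot K hK1 hK0 z
        have hkD : k ∈ D := by
          have := D.sub_mem hz (D.algebraMap_mem r)
          rwa [add_sub_cancel_left] at this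
        have hkT : k ∈ T := ⟨hk, hkD⟩
        rw [h] at hkT
        rw [Ideal.mem_bot.1 hkT, add_zero]
        exact Subalgebra.algebraMap_mem _ r
      · exact h
    rw [eq_top_iff]
    intro z _
    obtain ⟨r, k, hk, rfl⟩ := hB.quot K hK1 hK0 z
    have hkT : k ∈ T := by rw [hTK]; exact hk
    exact D.add_mem (D.algebraMap_mem r) hkT.2

end Pool.Agent.Q132.RF
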