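import Pool.Agent.Q132.RF.Basic
import Pool.Agent.Q132.RF.Nilp
import Pool.Agent.Q132.RF.Mat
import Pool.Agent.Q132.RF.Struct

set_option autoImplicit false

/-!
# Subalgebra lattices of finite algebras satisfy the union-closed conjecture
-/

namespace Pool.Agent.Q132.RF

open Polynomial

/-- a modular, nontrivial lattice of subalgebras of a quotient is enough -/
theorem good_of_modular {R A B : Type*} [CommRing R] [Ring A] [Ring B] [Algebra R A] [Algebra R B]
    [Finite A] [Finite B] (f : A →ₐ[R] B) (hf : Function.Surjective f)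
    (hB : (⊥ : Subalgebra R B) ≠ ⊤) (hmod : IsModularLattice (Subalgebra R B)) :
    Good (Subalgebra R A) := by
  obtain ⟨M, hM⟩ := (Set.toFinite {M : Subalgebra R B | M ≠ ⊤}).exists_maximal ⟨⊥, hB⟩
  have hMt : M ≠ ⊤ := hM.1
  have hne : {C : Subalgebra R B | ¬ C ≤ M}.Nonempty :=
    ⟨⊤, fun h => hMt (top_le_iff.1 h)⟩
  obtain ⟨C, hC⟩ := (Set.toFinite {C : Subalgebra R B | ¬ C ≤ M}).exists_minimal hne
  have hCM : ¬ C ≤ M := hC.1
  have hlt : ∀ b : Subalgebra R B, b ≤ C → b ≠ C → b ≤ M := by
    intro b hb hbne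
    by_contra hcon
    exact hbne (le_antisymm hb (hC.2 hcon hb))
  refine good_of_one f hf C M ⟨?_, ?_⟩ hCM ?_
  · intro hm
    exact hCM ((hm bot_le).trans bot_le)
  · intro b c hbc
    by_contra hcon
    rw [not_or] at hcon
    apply hCM
    rw [← hbc]
    exact sup_le (hlt b (hbc ▸ le_sup_left) hcon.1) (hlt c (hbc ▸ le_sup_right) hcon.2)
  · intro D hD
    have htop : C ⊔ M = ⊤ := by
      by_contra hcon
      exact hCM (le_sup_left.trans (hM.2 hcon le_sup_right))
    have h1 := sup_inf_assoc_of_le M hD
    rw [htop, top_inf_eq] at h1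
    rw [inf_comm D M, ← h1]

theorem modular_of_orderIso {L L' : Type*} [Lattice L] [Lattice L'] (e : L ≃o L')
    [IsModularLattice L'] : IsModularLattice L := by
  refine ⟨fun {x} y {z} h => ?_⟩
  have h1 := sup_inf_le_assoc_of_le (e y) (e.monotone h)
  rw [← e.map_sup, ← e.map_inf, ← e.map_inf, ← e.map_sup] at h1
  exact e.le_iff_le.1 h1

/-- the intermediate rings of a finite field form a modular lattice -/
theorem modular_field (R B : Type*) [CommRing R] [Field B] [Finite B] [Algebra R B] :
    IsModularLattice (Subalgebra R B) := by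
  have hk : IsField (⊥ : Subalgebra R B) := Finite.isField_of_domain _
  let _ : Field (⊥ : Subalgebra R B) := hk.toField
  let e : Subalgebra R B ≃o Subalgebra (⊥ : Subalgebra R B) B :=
    { toFun := fun D =>
        { D.toSubring with
          algebraMap_mem' := fun r => (bot_le : (⊥ : Subalgebra R B) ≤ D) r.2 }
      invFun := fun D =>
        { D.toSubring with
          algebraMap_mem' := fun r =>
            D.algebraMap_mem' ⟨algebraMap R B r, Subalgebra.algebraMap_mem _ r⟩ }
      left_inv := fun D => by ext; rfl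
      right_inv := fun D => by ext; rfl
      map_rel_iff' := Iff.rfl }
  have h2 : IsModularLattice (Subalgebra (⊥ : Subalgebra R B) B) := by
    let _ : CommGroup (Gal(B/(⊥ : Subalgebra R B))) := IsCyclic.commGroup
    have e2 : Subalgebra (⊥ : Subalgebra R B) B ≃o (Subgroup (Gal(B/(⊥ : Subalgebra R B))))ᵒᵈ :=
      subalgebraEquivIntermediateField.trans IsGalois.intermediateFieldEquivSubgroup
    exact modular_of_orderIso e2
  exact modular_of_orderIso e

theorem scalars_invertible {R B : Type*} [CommRing R] [Ring B] [Algebra R B] [Finite B]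
    [IsSimpleRing B] (r : R) (hr : algebraMap R B r ≠ 0) : ∃ s : R, algebraMap R B (s * r) = 1 := by
  have hc : algebraMap R B r ∈ Subring.center B := by
    rw [Subring.mem_center_iff]
    intro g
    exact (Algebra.commutes r g).symm
  obtain ⟨c, hcc⟩ := (IsSimpleRing.isField_center B).mul_inv_cancel (a := ⟨algebraMap R B r, hc⟩)
    (fun h => hr (congrArg Subtype.val h))
  have h1 : algebraMap R B r * (c : B) = 1 := congrArg Subtype.val hcc
  have h2 : (c : B) * algebraMap R B r = 1 := by
    rw [← Algebra.commutes r (c : B)]; exact h1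
  let u : Bˣ := ⟨algebraMap R B r, c, h1, h2⟩
  have h3 := orderOf_pos u
  refine ⟨r ^ (orderOf u - 1), ?_⟩
  rw [← pow_succ, Nat.sub_add_cancel h3, map_pow]
  have h4 : ((u ^ orderOf u : Bˣ) : B) = ((1 : Bˣ) : B) := by rw [pow_orderOf_eq_one]
  rw [Units.val_pow_eq_pow_val, Units.val_one] at h4
  exact h4

theorem supIrred_of_matrix {R B : Type*} [CommRing R] [Ring B] [Algebra R B] [Finite B]
    [IsSimpleRing B] (x : B) (hx : IsNilpotent x) (hx0 : x ≠ 0) :
    SupIrred (Algebra.adjoin R {x}) := by
  have : Nontrivial B := ⟨⟨x, 0, hx0⟩⟩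
  exact supIrred_adjoin scalars_invertible x hx hx0

/-- the case of a simple quotient -/
theorem good_of_simple {R A B : Type*} [CommRing R] [Ring A] [Ring B] [Algebra R A] [Algebra R B]
    [Finite A] [Finite B] [IsSimpleRing B] (f : A →ₐ[R] B) (hf : Function.Surjective f)
    (hB : (⊥ : Subalgebra R B) ≠ ⊤) : Good (Subalgebra R A) := by
  obtain ⟨n, hn, D, hD, ⟨e⟩⟩ := IsSimpleRing.exists_ringEquiv_matrix_divisionRing B
  have : Finite D := by
    have hn0 : 0 < n := Nat.pos_of_ne_zero hn.out
    refine Finite.of_injective (fun d : D => e.symm (Matrix.single ⟨0, hn0⟩ ⟨0, hn0⟩ d)) ?_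
    intro a b hab
    have h1 := e.symm.injective hab
    have h2 := congrFun (congrFun h1 ⟨0, hn0⟩) ⟨0, hn0⟩
    simpa using h2
  let _ : Field D := littleWedderburn D
  match n, hn, e with
  | 0, hn, _ => exact absurd rfl hn.out
  | 1, _, e =>
    have hF : IsField B := by
      let e' : B ≃+* D := e.trans (Matrix.uniqueRingEquiv (m := Fin 1))
      exact e'.toMulEquiv.isField (Field.toIsField D)
    let _ : Field B := hF.toField
    exact good_of_modular f hf hB (modular_field R B)
  | m + 2, _, e =>
    obtain ⟨ζ, hζ⟩ := IsCyclic.exists_generator (α := Dˣ)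
    set X := e.symm (shiftM D (m + 2)) with hX
    set Y := e.symm (Matrix.single (Fin.last (m + 1)) 0 (ζ : D)) with hY
    have hXn : IsNilpotent X := (shiftM_nilpotent (D := D) (n := m + 2)).map e.symm
    have hYn : IsNilpotent Y := by
      have : IsNilpotent (Matrix.single (Fin.last (m + 1)) (0 : Fin (m + 2)) (ζ : D)) := by
        refine ⟨2, ?_⟩
        rw [pow_two, Matrix.single_mul_single_of_ne]
        exact (Fin.last_pos).ne
      exact this.map e.symm
    have hX0 : X ≠ 0 := by
      intro h
      rw [hX, map_eq_zero_iff _ e.symm.injective] at h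
      have := congrFun (congrFun h 0) 1
      rw [shiftM_apply] at this
      simp at this
    have hY0 : Y ≠ 0 := by
      intro h
      rw [hY, map_eq_zero_iff _ e.symm.injective] at h
      have := congrFun (congrFun h (Fin.last (m + 1))) 0
      simp at this
    refine good_of_two f hf _ _ (supIrred_of_matrix X hXn hX0) (supIrred_of_matrix Y hYn hY0) ?_
    set H := Algebra.adjoin R {X} ⊔ Algebra.adjoin R {Y} with hH
    have hXH : X ∈ H := (le_sup_left : Algebra.adjoin R {X} ≤ H) (Algebra.subset_adjoin rfl)
    have hYH : Y ∈ H := (le_sup_right : Algebra.adjoin R {Y} ≤ H) (Algebra.subset_adjoin rfl)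
    have hT : H.toSubring.comap (e.symm : Matrix (Fin (m + 2)) (Fin (m + 2)) D →+* B) = ⊤ := by
      refine generate m ζ hζ _ ?_ ?_
      · exact hXH
      · exact hYH
    rw [eq_top_iff]
    intro b _
    have h1 : e b ∈ H.toSubring.comap (e.symm : Matrix (Fin (m + 2)) (Fin (m + 2)) D →+* B) := by
      rw [hT]; trivial
    have h2 : e.symm (e b) ∈ H := h1
    rwa [e.symm_apply_apply] at h2

/-- **Main theorem**: a finite algebra that is not generated by the scalars -/
theorem good_subalgebra (R A : Type*) [CommRing R] [Ring A] [Algebra R A] [Finite A]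
    (h : (⊥ : Subalgebra R A) ≠ ⊤) : Good (Subalgebra R A) := by
  obtain ⟨I, hI, hB⟩ := exists_crit R A h
  have hs := Ideal.Quotient.mkₐ_surjective R I
  have : Finite (A ⧸ I) := Finite.of_surjective _ hs
  rcases crit_cases hB with h1 | h1
  · refine good_of_one (Ideal.Quotient.mkₐ R I) hs ⊤ ⊥ ⟨?_, ?_⟩ ?_ ?_
    · intro hm
      exact hB.ne (le_antisymm bot_le (hm bot_le))
    · intro b c hbc
      by_cases hb : b = ⊥
      · right
        rw [hb, bot_sup_eq] at hbc
        exact hbc
      · left; exact h1 b hb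
    · intro hle
      exact hB.ne (le_antisymm bot_le hle)
    · intro D _
      exact le_top.trans le_sup_left
  · exact good_of_simple (Ideal.Quotient.mkₐ R I) hs hB.ne

end Pool.Agent.Q132.RF
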